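import Pool.Agent.Run7.h43.NC.Main
import Pool.Agent.R484.NCc

/-!
# The sign conjecture when one of the two parts is generated by other objects

`C` is a `ℚ`-linear rigid symmetric monoidal category in which the endomorphisms of the unit object
are the rational numbers, for example the category `NChow(k)_ℚ` of noncommutative Chow motives, and
`R` is a symmetric monoidal additive functor to finite dimensional super vector spaces over a field,
for example `HP_±` in characteristic zero and `TP_±(-)_{1/p}` in characteristic `p`.

Choose a sign: the even or the odd part. Let `𝒮` and `𝒮'` be two sets of objects, such that `C⁺(X)`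
holds for `X` in `𝒮` and the numerically trivial morphisms from `X` to `X'` act as zero on the part of
`R(X)` of this sign for `X` in `𝒮` and `X'` in `𝒮'`. Let `M` be ANY object. Then the projector of
`R(M)` onto the part of this sign is realised by a combination, with rational coefficients, of
compositions `M → X' → X → M` with `X'` in `𝒮'` and `X` in `𝒮` if and only if

* the part is generated by `𝒮`: it is contained in the span, over the field of `R`, of the images of
  all morphisms from objects in `𝒮`; and
* the part is detected by `𝒮'`: its elements which are killed by all morphisms to objects in `𝒮'`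
  are zero.

If this holds for one part, then there is ONE endomorphism of `M` which realises the parity operator
for all realisations `R'` of `C` with `dim R'(M) ≤ dim R(M) + 1`; so `C⁺(M)` holds for all of them.

Nothing is assumed about the other part of `R(M)`. For `𝒮 = 𝒮'` the motives of smooth projective curves, all
hypotheses on `𝒮` are known in all characteristics (for two curves numerical and homological
equivalence on the product are the same). So `C⁺` holds for all smooth proper dg categories `A` whose
odd part `HP_-(A)` or `TP_-(A)_{1/p}` is generated by and detected by curves, whatever the even part.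
For `𝒮' = {M}` the second condition is empty.

The proof: on the space of the compositions `M → X' → (X, π) → M`, where `π` is the projector of `X`
onto the part considered, the form `(s, t) ↦ Tr(s t)` has finite rank and rational values. If `t` is
in its radical, then the compositions `X → M → M → X'` given by `t` are numerically trivial, so zero;
so `t` kills the generated part of `R(M)`, which contains its image, and its trace is zero. So there
is `e` with `Tr(e t) = Tr(t)` for all `t`, and by the same argument `e` is the identity on the
generated part.
-/

set_option autoImplicit false

open CategoryTheory Limits MonoidalCategory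

namespace Pool.Agent.Results.MP_8f22fa_ag.GeneratedParity

open Pool.Agent.Y112.SR Pool.Agent.Y112.KD Pool.Agent.R484.NC Run7.h43.NC

universe v u w

/-- **The sign conjecture when one part is generated and detected.** -/
theorem result {C : Type u} [Category.{v} C] [Preadditive C] [Linear ℚ C] [MonoidalCategory C]
    [MonoidalPreadditive C] [MonoidalLinear ℚ C] [SymmetricCategory C] [RightRigidCategory C]
    (hU : UnitQ C) {K : Type w} [Field K] (R : SuperRealisation C K) (𝒮 𝒮' : Set C)
    (ε : K) (hε : ε = 1 ∨ ε = -1) (hC : ∀ X ∈ 𝒮, R.CPlus X)
    (hD : ∀ X ∈ 𝒮, ∀ X' ∈ 𝒮', HomNum hU R ε X X') (M : C) :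
    ((∃ e ∈ through 𝒮' 𝒮 M, Projects R ε e) ↔ Generated R 𝒮 ε M ∧ Detected R 𝒮' ε M) ∧
    (Generated R 𝒮 ε M → Detected R 𝒮' ε M → ∃ P : M ⟶ M,
      ∀ {K' : Type w} [Field K'] (R' : SuperRealisation C K'),
        totalDim R' M < totalDim R M + 2 → R'.H.map P = R'.par M) := by
  constructor
  · constructor
    · rintro ⟨e, he, he'⟩
      exact generated_of_proj hε he he'
    · rintro ⟨hg, hd⟩
      obtain ⟨e, he, he'⟩ := exists_proj hU hε hC hD hg hd
      exact ⟨e, tj_le he, he'⟩
  · intro hg hd
    obtain ⟨e, -, he'⟩ := exists_proj hU hε hC hD hg hd
    have h0 : R.CPlus M := cplus_of_projects hε he'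
    obtain ⟨ρ, -, h2, -⟩ := exists_index hU R
    obtain ⟨P, hP⟩ := h2 M
    have h3 : totalDim R M = ρ M := ((hP R).2.2.out 0 2).1 h0
    refine ⟨P, fun {K'} _ R' hR' => ?_⟩
    rw [h3] at hR'
    exact ((hP R').2.2.out 3 1).1 hR'

end Pool.Agent.Results.MP_8f22fa_ag.GeneratedParity
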