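import Mathlib
import Pool.Agent.Run7.h200.GR.NC

/-!
# Group actions and the noncommutative sign conjecture

`C` is a `ℚ`-linear symmetric monoidal category, for example the category `NChow(k)_ℚ` of
noncommutative Chow motives, and `R` is a symmetric monoidal functor to finite
dimensional super vector spaces, for example `HP_±` or `TP_±(-)_{1/p}`. A finite group `G` acts on an
object `M`, for example `M = U(A)_ℚ` for a smooth proper dg category `A` with an action of `G`. For a subgroup
`H` of `G` let `J H` be the assertion that an endomorphism of `M` realises `π_+ ∑_{h ∈ H} h`, where
`π_+` is the projector onto the even part of `R(M)`.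

(1) `J 1` is `C⁺(M)`, and `J H` is `C⁺(N)` if `N` is the direct summand `M^H` of the invariants of `H`
(it exists in `NChow(k)_ℚ`, as this category is idempotent complete).

(2) `J H` is inherited by bigger groups. `Sieve`: let `K` be a commutative subgroup, and
`R_j` subgroups with `J R_j`. Then `C⁺(M)` is equivalent to the assertions `C⁺(M^D)` for the
`D ⊆ K` for which `K/D` is cyclic and which contain no `R_j`.

(3) `C⁺(M)` is equivalent to the assertions for all the groups of a dominating family; for the
`D ⊆ K` with `K/D` cyclic, `K` commutative; for the components of a partition of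
a subgroup; for `⟨c⟩` and `[G, c]`, `c` an involution; for `⟨c⟩` if `c` is contained in a nonabelian
simple subgroup; for `A_k` if `A_n` acts and `(k - 1) ^ 2 < n`; for
`A_k` and the group of the even permutations preserving `k - 1` classes, `2 ≤ k ≤ n` (`Criteria`).

(4) If `C⁺(M)` is wrong, but `C⁺(M^P)` holds for the subgroups `P` of prime order, then `G` acts freely on
the nonzero vectors of an irreducible rational representation on which all elements `∑ x_g g` for which
`π_+ ∑ x_g g` is algebraic act as zero, the commutative subgroups and the subgroups of order `p q` of `G`
are cyclic, and `G` has at most one involution.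
-/

set_option autoImplicit false

open CategoryTheory Pool.Agent.Y112.SR Run7.h200.GR

universe v u w

namespace Pool.Agent.Results.MP_8f22fa_ag.GroupActions

/-- **Group actions and the sign conjecture.** `SumIn (EvenPart R a) H` is the assertion `J H`. -/
theorem result {C : Type u} [Category.{v} C] [Preadditive C] [Linear ℚ C] [MonoidalCategory C]
    [SymmetricCategory C] {K : Type w} [Field K] (R : SuperRealisation C K) (M : C) {G : Type}
    [Group G] [Finite G] (a : G →* End M) :
    (SumIn (EvenPart R a) ⊥ ↔ R.CPlus M) ∧
    (∀ (H : Subgroup G) (N : C), IsInvariants a H N → (SumIn (EvenPart R a) H ↔ R.CPlus N)) ∧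
    AllCriteria (EvenPart R a) :=
  ⟨even_bot, fun _ _ hN => even_inv hN, Run7.h200.GR.all evenTwoSided⟩

end Pool.Agent.Results.MP_8f22fa_ag.GroupActions
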