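import Pool.Agent.Run7.h301.SL.Half
import Pool.Agent.Run7.h301.SL.Field

/-!
# One half of the standard conjecture of type C⁺ suffices

`C` is a `ℚ`-linear rigid symmetric monoidal category with `End(1) = F`, a field of characteristic
zero, for example the category of noncommutative Chow motives, with `F = ℚ`, and `R` is an `F`-linear
realisation in finite dimensional super vector spaces over a field `K` which contains `F`, for example
periodic cyclic homology or topological periodic cyclic homology (`Coefficients F R`). `CPlus M` is the
standard conjecture of type `C⁺` for `M`.

Let `b(M)` be the dimension of `R(M)` and `c(M)` the dimension of the realisation of the largest direct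
summand of `M` (coefficients in `K`) which is the sum of an even and an odd one (`splitDim`).

**The ratio law.** Let `M'` and `N'` be indecomposable direct summands of `M` and `N` (coefficients in
`K`), with realisations of dimensions `(a₀, a₁)` and `(b₀, b₁)`. If `M' ⊗ N'` has an even direct
summand, not zero, then `a₀ ≠ a₁` and `a₀ b₁ = b₀ a₁`: the ratios of the even and the odd dimensions
are the same. If it has an odd direct summand, then `a₀ ≠ a₁` and `a₀ b₀ = a₁ b₁`: they are inverse to
each other. Hence the tensor product of two indecomposable summands can not have both, the tensor
square of one has no odd direct summand, and an indecomposable `M'` with `a₀ = a₁` has no tensor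
product with a direct summand of pure parity.

**The bound.** `c(M ⊗ N) ≤ c(M) c(N) + κ (b(M) - c(M)) (b(N) - c(N))`, `κ = 1 - 2 (b(M) - 1) / b(M)^2`.

**One half suffices.** If `C⁺(M)` is false, then for each `η > θ(b(M))`, where
`θ(b) = (b^2 - 2 b + 2) / (2 b^2 - 2 b + 2) < 1 / 2`, there are infinitely many `n` such that
`c(M^n) < η b(M)^n`. So `C⁺(M)` holds if and only if `c(M^n) ≥ b(M^n) / 2` for all large `n`, and `C⁺`
holds for all objects if and only if `c(M) ≥ b(M) / 2` for all objects: half of the dimension of each
object has to be accounted for.

The proof. Let `y` be the projector to a summand of parity `s` of `M' ⊗ N'`. The partial trace of `y`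
over one factor is an endomorphism of an indecomposable object, so that its characteristic polynomials
on the even and on the odd part are powers of the same irreducible polynomial, and its traces there
are proportional to `a₀` and `a₁`. As the parities of the two factors are equal up to `s` on the image
of `y`, this gives the traces of `y` on the four blocks, once in terms of `(a₀, a₁)` and once in terms
of `(b₀, b₁)`.
-/

set_option autoImplicit false

open CategoryTheory Limits MonoidalCategory

namespace Pool.Agent.Results.MP_8f22fa_ag.OneHalfSuffices

open Pool.Agent.Y112.SR Pool.Agent.Y112.KD Pool.Agent.R484.NC Pool.Agent.Run7.h301.SL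

universe v u w x

/-- **The ratio law, and one half suffices.** -/
theorem result {C : Type u} [Category.{v} C] [Preadditive C] [Linear ℚ C] [MonoidalCategory C]
    [SymmetricCategory C] [RightRigidCategory C] {K : Type w} [Field K]
    {F : Type x} [Field F] [Linear F C] [Algebra F K]
    (R : SuperRealisation C K) (hR : Coefficients F R) :
    RatioLaw R ∧ (∀ M N : C, SharpBound R M N) ∧ (∀ M : C, ¬ R.CPlus M → BelowTheta R M) ∧
    (∀ b : ℕ, 2 ≤ b → theta b < 1 / 2) ∧ OneHalf R := by
  have hD := descends_of_coefficients R hR
  exact ⟨ratioLaw R, sharpBound R, fun M hC => belowTheta hD hC, fun b hb => theta_lt hb,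
    cplus_iff_half hD, all_iff_half hD⟩

end Pool.Agent.Results.MP_8f22fa_ag.OneHalfSuffices
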