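import Pool.Agent.Run7.h488.ZD.Main

/-!
# The sign conjecture and the number of zeros and poles of zeta functions

`C` is a `ℚ`-linear rigid symmetric monoidal category in which the endomorphisms of the unit object are
the rational numbers, for example the category `NChow(k)_ℚ` of noncommutative Chow motives; `R`, `R₀` are
symmetric monoidal additive functors to finite dimensional super vector spaces over fields, for example
`HP_±` in characteristic zero and `TP_±(-)_{1/p}` in characteristic `p`. For a smooth and proper dg
category `A` the endomorphisms `f` of `M = U(A)` are the classes in `K_0(A^op ⊗ A)_ℚ`, and `ctr (f ^ k)` is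
the Euler characteristic of the Hochschild homology of `A` with coefficients in the `k`-th power of `f`.

The zeta function of an endomorphism `f` of `M` is `exp (∑_(k ≥ 1) ctr (f ^ k) t ^ k / k)`. It is the product
of the factors `(1 - x t) ^ (- m (x))` for a unique function `m` with integer values and finite support on
the nonzero algebraic numbers, the spectrum of `f` (`IsSpectrum`). The zeta degree is the number
`∑ |m (x)|` of the zeros and poles of the zeta function, counted with multiplicities.

For every realisation the zeta function is the quotient of the characteristic polynomials of `f` on the
odd and on the even part, up to the normalisation, but common factors may cancel. So the zeta degree is at most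
`dim R(M)`.

Theorem.
1. The largest zeta degree of an endomorphism of `M` is the parity index `ρ` of `M`, the largest trace of
   a numerical involution (`ParityIndex`).
2. For every realisation `R` the following are equivalent: `C⁺(M)` for `R`; `dim R(M) = ρ`; there is
   an endomorphism of `M` whose zeta function has `dim R(M)` zeros and poles; there is one whose zeta
   function has at least `dim R(M) - 1` zeros and poles.
3. If the zeta function of `f` has at least `dim R(M) - 1` zeros and poles, then a polynomial in `f` with
   rational coefficients realises the parity operator.

Part 3 is the argument of Katz and Messing for the Frobenius endomorphism over a finite field, where by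
Deligne the weights exclude cancellations; parts 1 and 2 say that this is the only way: `C⁺(M)` holds if
and only if some correspondence has a zeta function without cancellations.

The proof: some nonzero polynomial `μ` in `f` with rational coefficients is numerically trivial, so the
numbers `x` with `m (x) ≠ 0` are roots of `μ`, and `m` is invariant under the Galois group. Write
`μ = u v` with coprime `u`, `v` such that `m ≥ 0` at the roots of `u` and `m < 0` at the nonzero roots of `v`
of nonzero multiplicity, and let `g` be a polynomial which is `1` modulo `u` and `-1` modulo `v`. Then
`g (f)` is a numerical involution, whose trace is at least the zeta degree. Conversely let `w` be a numerical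
involution and `f = 1 + (1 + w) / 2`. The zeta function of `f` has zeros and poles only for the eigenvalues
`1` and `2`, and the trace of `w` is at most its degree.
-/

set_option autoImplicit false

open CategoryTheory Limits MonoidalCategory Polynomial

namespace Pool.Agent.Results.MP_8f22fa_ag.ZetaDegree

open Pool.Agent.Y112.SR Pool.Agent.Y112.KD Pool.Agent.R484.NC Run7.h488.ZD

universe v u w

/-- **The largest number of zeros and poles of the zeta function of an endomorphism is the parity
index; the sign conjecture holds if and only if some zeta function has no cancellation.** -/
theorem result {C : Type u} [Category.{v} C] [Preadditive C] [Linear ℚ C] [MonoidalCategory C]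
    [MonoidalPreadditive C] [MonoidalLinear ℚ C] [SymmetricCategory C] [RightRigidCategory C]
    (hU : UnitQ C) {K₀ : Type w} [Field K₀] (R₀ : SuperRealisation C K₀) (M : C) :
    -- the zeta function of each endomorphism is rational
    (∀ f : End M, ∃! m, IsSpectrum hU f m) ∧
    ∃ ρ : ℕ,
      -- the largest zeta degree is the parity index
      IsGreatest {d : ℕ | ∃ (f : End M) (m : AlgebraicClosure ℚ →₀ ℤ),
        IsSpectrum hU f m ∧ zetaDegree m = d} ρ ∧
      IsGreatest {d : ℚ | ∃ w : M ⟶ M, NumInvolution hU w ∧ ctr hU w = d} (ρ : ℚ) ∧
      ∀ {K : Type w} [Field K] (R : SuperRealisation C K),
        ρ ≤ totalDim R M ∧ Even (totalDim R M - ρ) ∧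
        [R.CPlus M, totalDim R M = ρ,
          ∃ (f : End M) (m : AlgebraicClosure ℚ →₀ ℤ), IsSpectrum hU f m ∧
            zetaDegree m = totalDim R M,
          ∃ (f : End M) (m : AlgebraicClosure ℚ →₀ ℤ), IsSpectrum hU f m ∧
            totalDim R M ≤ zetaDegree m + 1].TFAE ∧
        -- the parity operator is realised by a polynomial in `f`
        ∀ (f : End M) (m : AlgebraicClosure ℚ →₀ ℤ), IsSpectrum hU f m →
          totalDim R M ≤ zetaDegree m + 1 → ∃ g : ℚ[X], R.H.map (aeval f g) = R.par M :=
  main hU R₀ M

end Pool.Agent.Results.MP_8f22fa_ag.ZetaDegree
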